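import Pool.Agent.Q205.QLim.Fin

/-!
# Families of metrics: largest deviations on the eigenspaces
-/

set_option autoImplicit false

open Set Filter Topology MeasureTheory
open scoped Real ContDiff

noncomputable section

namespace Pool.Agent.Q205.QErg

open Pool.Agent.Y262.QE Pool.Agent.Y264.QR Pool.Agent.Y363.QE Pool.Agent.Q205.QLim

/-- a sequence of closed sets: generic points are in finitely many of them, or the points of some
open set are generically in infinitely many -/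
theorem closed_dichotomy {X : Type*} [TopologicalSpace X] {S : ℕ → Set X}
    (hS : ∀ j, IsClosed (S j)) :
    (∀ᶠ x in residual X, ∀ᶠ j in atTop, x ∉ S j) ∨
    ∃ U : Set X, IsOpen U ∧ U.Nonempty ∧ ∀ᶠ x in residual X, x ∈ U → ∃ᶠ j in atTop, x ∈ S j := by
  have hB : BaireMeasurableSet {x | ∃ᶠ j in atTop, x ∈ S j} := by
    have : {x | ∃ᶠ j in atTop, x ∈ S j} = ⋂ J : ℕ, ⋃ j : ℕ, ⋃ _ : J ≤ j, S j := by
      ext x
      simp only [mem_ofPred_eq, frequently_atTop, mem_iInter, mem_iUnion, exists_prop]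
    rw [this]
    refine BaireMeasurableSet.iInter fun J => BaireMeasurableSet.iUnion fun j =>
      BaireMeasurableSet.iUnion fun _ => ?_
    exact BaireMeasurableSet.of_compl (hS j).isOpen_compl.baireMeasurableSet
  obtain ⟨U, hU, hNU⟩ := hB.residualEq_isOpen
  by_cases hne : U.Nonempty
  · refine Or.inr ⟨U, hU, hne, ?_⟩
    filter_upwards [hNU] with x hx hxU
    exact (iff_of_eq hx).2 hxU
  · left
    rw [not_nonempty_iff_eq_empty] at hne
    subst hne
    filter_upwards [hNU] with x hx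
    by_contra hcon
    exact (iff_of_eq hx).1 hcon

/-- if generic points are in finitely many of the closed sets, this is locally uniform -/
theorem closed_uniform {X : Type*} [TopologicalSpace X] [BaireSpace X] {S : ℕ → Set X}
    (hS : ∀ j, IsClosed (S j)) (h : ∀ᶠ x in residual X, ∀ᶠ j in atTop, x ∉ S j) :
    ∃ U : ℕ → Set X, (∀ J, IsOpen (U J)) ∧ Dense (⋃ J, U J) ∧
      ∀ J, ∀ᶠ x in residual X, x ∈ U J → ∀ j, J ≤ j → x ∉ S j := by
  have hB : ∀ J : ℕ, BaireMeasurableSet {x | ∀ j, J ≤ j → x ∉ S j} := by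
    intro J
    have : {x | ∀ j, J ≤ j → x ∉ S j} = ⋂ j : ℕ, ⋂ _ : J ≤ j, (S j)ᶜ := by
      ext x
      simp only [mem_ofPred_eq, mem_iInter, mem_compl_iff]
    rw [this]
    exact BaireMeasurableSet.iInter fun j => BaireMeasurableSet.iInter fun _ =>
      (hS j).isOpen_compl.baireMeasurableSet
  choose U hU hNU using fun J => (hB J).residualEq_isOpen
  refine ⟨U, hU, ?_, fun J => ?_⟩
  · refine dense_of_mem_residual ?_
    filter_upwards [h, eventually_countable_forall.2 hNU] with x hx hxU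
    obtain ⟨J, hJ⟩ := eventually_atTop.1 hx
    exact mem_iUnion.2 ⟨J, (iff_of_eq (hxU J)).1 hJ⟩
  · filter_upwards [hNU J] with x hx hxU
    exact (iff_of_eq hx).2 hxU

variable {M : Type} [MetricSpace M] [CompactSpace M] [MeasurableSpace M] [BorelSpace M]
  (μ : Measure M) [IsFiniteMeasure μ] {H : Type} [NormedAddCommGroup H] [InnerProductSpace ℝ H]
  (i : H →L[ℝ] Lp ℝ 2 μ) (a : H →L[ℝ] H →L[ℝ] ℝ) (b : C(M, ℝ) → H →L[ℝ] H →L[ℝ] ℝ)

/-- the largest deviation of the mass of `f` from its mean value on the unit eigenvectors of the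
eigenvalue with index `j` is at least `ε` -/
def Dev (f : C(M, ℝ)) (ε : ℝ) (j : ℕ) : Set C(M, ℝ) :=
  {φ | ∀ η : ℝ, 0 < η → ∃ v, UE a (b φ) (Ev a (b φ) j) v ∧
    ε - η < |kap μ i f φ v - avg μ f φ|}

section main

variable (hSf : Sf μ i a) (hB : IsB μ i b)
  (hex : ∀ φ, ∃ (e : ℕ → H) (E : ℕ → ℝ), Eg a (b φ) e E)

include hSf hB hex

theorem isClosed_dev (f : C(M, ℝ)) (ε : ℝ) (j : ℕ) : IsClosed (Dev μ i a b f ε j) := by
  obtain ⟨-, hA, -, -⟩ := facts μ i a b hSf hB
  rw [← isOpen_compl_iff, isOpen_iff_mem_nhds]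
  intro φ hφ
  simp only [Dev, mem_compl_iff, mem_ofPred_eq, not_forall, not_exists, not_and, not_lt] at hφ
  obtain ⟨η, hη, hv⟩ := hφ
  have h3 : 0 < η / 3 := by positivity
  obtain ⟨δ, hδ, hp⟩ := pert μ i a b hSf hB hex φ j f h3
  have hc := (avg_continuous μ hA f).tendsto φ
  have hc2 := hc.eventually (Metric.ball_mem_nhds _ h3)
  filter_upwards [hc2, Metric.ball_mem_nhds φ hδ] with ψ hψ1 hψ2 hbad
  rw [Real.dist_eq] at hψ1
  replace hψ2 : ‖ψ - φ‖ < δ := by rw [← dist_eq_norm]; exact hψ2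
  obtain ⟨w, hw, hwc⟩ := hbad (η / 3) h3
  obtain ⟨v, hv1, hv2⟩ := hp ψ hψ2 w hw
  have h1 := hv v hv1
  have h4 : |kap μ i f ψ w - avg μ f ψ| ≤ |kap μ i f φ v - avg μ f φ| + η / 3 + η / 3 := by
    rw [abs_le] at hv2
    rw [abs_lt] at hψ1
    rw [abs_le]
    have h5 := abs_le.1 (le_refl |kap μ i f φ v - avg μ f φ|)
    constructor <;> linarith [h5.1, h5.2, hv2.1, hv2.2, hψ1.1, hψ1.2]
  linarith

omit hB hex hSf [IsFiniteMeasure μ] in
theorem not_dev {f : C(M, ℝ)} {ε : ℝ} {j : ℕ} {φ : C(M, ℝ)} (h : φ ∉ Dev μ i a b f ε j) {v : H}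
    (hv : UE a (b φ) (Ev a (b φ) j) v) : |kap μ i f φ v - avg μ f φ| < ε := by
  simp only [Dev, mem_ofPred_eq, not_forall, not_exists, not_and, not_lt] at h
  obtain ⟨η, hη, h⟩ := h
  have := h v hv
  linarith

omit hex in
/-- approximation of the function -/
theorem dev_approx {f f' : C(M, ℝ)} {ε : ℝ} {j : ℕ} {φ : C(M, ℝ)}
    (hf : ‖f - f'‖ ≤ ε) {v : H} (hv : UE a (b φ) (Ev a (b φ) j) v)
    (h : |kap μ i f' φ v - avg μ f' φ| < ε) : |kap μ i f φ v - avg μ f φ| < 3 * ε := by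
  obtain ⟨-, hA, -, -⟩ := facts μ i a b hSf hB
  have h1 := kap_sub_left μ i b hB f f' φ v
  rw [hv.1, mul_one] at h1
  have h2 := avg_sub μ hA f f' φ
  rw [abs_le] at h1 h2
  rw [abs_lt] at h ⊢
  constructor <;> linarith [h1.1, h1.2, h2.1, h2.2, h.1, h.2]

end main

/-- an eigenvalue of the forms is one of the minimax values -/
theorem exists_index {a b : H →L[ℝ] H →L[ℝ] ℝ} (hF : Fm a b) {e : ℕ → H} {E : ℕ → ℝ}
    (hE : Eg a b e E) {lam : ℝ} {v : H} (hv : b v v = 1) (hlam : ∀ w, a v w = lam * b v w) :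
    ∃ j, Ev a b j = lam ∧ UE a b (Ev a b j) v := by
  by_contra hcon
  push Not at hcon
  have hmm : ∀ j, Ev a b j = E j := fun j => Pool.Agent.Y592.QE.mm H a b hF e E hE j
  have hne : ∀ j, E j ≠ lam := by
    intro j hj
    refine hcon j ((hmm j).trans hj) ⟨hv, fun w => ?_⟩
    rw [hmm, hj]
    exact hlam w
  have h0 : ∀ j, b v (e j) = 0 := by
    intro j
    have h1 := hlam (e j)
    have h2 := hE.eig j v
    rw [hF.sa, h2, hF.sb (e j) v] at h1
    have h3 : (E j - lam) * b v (e j) = 0 := by linarith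
    exact (mul_eq_zero.1 h3).resolve_left (sub_ne_zero.2 (hne j))
  have h1 := hE.sum v
  simp only [h0, ne_eq, OfNat.ofNat_ne_zero, not_false_eq_true, zero_pow] at h1
  have h2 := h1.unique hasSum_zero
  rw [hv] at h2
  exact one_ne_zero h2

end Pool.Agent.Q205.QErg
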