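import Pool.Agent.Q205.QErg.Core
import Pool.Agent.Y264.QR.All

/-!
# Families of conformal metrics on a closed surface: all normalised eigenfunctions
-/

set_option autoImplicit false

open Set Filter Topology MeasureTheory
open scoped Real ContDiff

noncomputable section

namespace Pool.Agent.Q205.QErg

open Pool.Agent.Y262.QE

/-- the surface with the metric `exp φ · g` -/
def surf {M : Type} [TopologicalSpace M] (D : Data M) (φ : C(M, ℝ)) : Data M :=
  D.conf fun x => Real.exp (φ x)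

/-- the area of the metric `exp φ · g` -/
def area {M : Type} [TopologicalSpace M] [MeasurableSpace M] (μ : Measure M) (φ : C(M, ℝ)) :
    Measure M :=
  wm μ fun x => Real.exp (φ x)

/-- `u` is an eigenfunction with the eigenvalue `lam` of the Laplacian of the metric `exp φ · g`, with
`∫ u² dA = 1` -/
def UnitEig {M : Type} [TopologicalSpace M] [MeasurableSpace M] (D : Data M) (μ : Measure M)
    (φ : C(M, ℝ)) (lam : ℝ) (u : M → ℝ) : Prop :=
  (surf D φ).IsEig (area μ φ) lam u ∧ ∫ x, (u x) ^ 2 ∂(area μ φ) = 1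

/-- the mean value of `f` for the metric `exp φ · g` -/
def mean {M : Type} [TopologicalSpace M] [MeasurableSpace M] (μ : Measure M) (f φ : C(M, ℝ)) : ℝ :=
  (∫ x, f x ∂(area μ φ)) / (area μ φ).real univ

/-- the mass of `f` for the function `u` and the metric `exp φ · g` -/
def mass {M : Type} [TopologicalSpace M] [MeasurableSpace M] (μ : Measure M) (f φ : C(M, ℝ))
    (u : M → ℝ) : ℝ :=
  ∫ x, f x * (u x) ^ 2 ∂(area μ φ)

/-- every sequence of normalised eigenfunctions of the metric `exp φ · g` whose eigenvalues tend to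
infinity is equidistributed -/
def QUE {M : Type} [TopologicalSpace M] [MeasurableSpace M] (D : Data M) (μ : Measure M)
    (φ : C(M, ℝ)) : Prop :=
  ∀ (lam : ℕ → ℝ) (u : ℕ → M → ℝ), (∀ k, UnitEig D μ φ (lam k) (u k)) →
    Tendsto lam atTop atTop → ∀ f : C(M, ℝ),
      Tendsto (fun k => mass μ f φ (u k)) atTop (𝓝 (mean μ f φ))

variable {M : Type} [MetricSpace M] [CompactSpace M] [MeasurableSpace M] [BorelSpace M]

/-- the translation between eigenfunctions and eigenvectors of forms -/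
theorem bridge [Nonempty M] (μ : Measure M) (D : Data M) (hD : D.IsSurf μ) :
    ∃ (_ : IsFiniteMeasure μ) (i : Pool.Agent.Y264.QR.HF D μ →L[ℝ] Lp ℝ 2 μ)
      (a : Pool.Agent.Y264.QR.HF D μ →L[ℝ] Pool.Agent.Y264.QR.HF D μ →L[ℝ] ℝ)
      (b : C(M, ℝ) → Pool.Agent.Y264.QR.HF D μ →L[ℝ] Pool.Agent.Y264.QR.HF D μ →L[ℝ] ℝ),
      Pool.Agent.Y264.QR.Sf μ i a ∧ Pool.Agent.Y264.QR.IsB μ i b ∧
      (∀ φ, ∃ (e : ℕ → Pool.Agent.Y264.QR.HF D μ) (E : ℕ → ℝ), Eg a (b φ) e E) ∧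
      (∀ φ lam u, UnitEig D μ φ lam u → ∃ j v, Ev a (b φ) j = lam ∧
        Pool.Agent.Q205.QLim.UE a (b φ) (Ev a (b φ) j) v ∧
        ∀ f, Pool.Agent.Y264.QR.kap μ i f φ v = mass μ f φ u) ∧
      (∀ φ j v, Pool.Agent.Q205.QLim.UE a (b φ) (Ev a (b φ) j) v →
        ∃ u, UnitEig D μ φ (Ev a (b φ) j) u ∧
        ∀ f, Pool.Agent.Y264.QR.kap μ i f φ v = mass μ f φ u) ∧
      (∀ f φ, Pool.Agent.Y264.QR.avg μ f φ = mean μ f φ) ∧
      (∀ j, Continuous fun φ => Ev a (b φ) j) ∧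
      (∀ φ, Monotone fun j => Ev a (b φ) j) ∧ ∀ φ, Tendsto (fun j => Ev a (b φ) j) atTop atTop := by
  obtain ⟨hf, -⟩ := tFin M μ D hD
  haveI := hf
  obtain ⟨i, a, hSf, hi, ha⟩ := Pool.Agent.Y264.QR.tPackF M μ D hD inferInstance
  obtain ⟨b, hB, hF, hA, hexp, -⟩ := Pool.Agent.Y264.QR.tFm M μ (Pool.Agent.Y264.QR.HF D μ) i a hSf
  haveI : CompleteSpace (Pool.Agent.Y264.QR.HF D μ) :=
    (Submodule.isClosed_topologicalClosure _).completeSpace_coe
  have hex : ∀ φ, ∃ (e : ℕ → Pool.Agent.Y264.QR.HF D μ) (E : ℕ → ℝ), Eg a (b φ) e E :=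
    fun φ => tSp (Pool.Agent.Y264.QR.HF D μ) a (b φ) (hF φ)
  have havg : ∀ f φ : C(M, ℝ), Pool.Agent.Y264.QR.avg μ f φ = mean μ f φ := fun f φ =>
    Pool.Agent.Y264.QR.avg_eq μ f φ
  obtain ⟨l1, l2, l3, l4, l5⟩ := Pool.Agent.Y390.QR.LIP.lip M μ (Pool.Agent.Y264.QR.HF D μ) a b hF
    hexp
  have hexpc : ∀ φ : C(M, ℝ), Continuous fun x => Real.exp (φ x) := fun φ =>
    Real.continuous_exp.comp φ.continuous
  have hbk : ∀ φ v, b φ v v = Pool.Agent.Y264.QR.kap μ i 1 φ v := by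
    intro φ v
    rw [hB]
    unfold Pool.Agent.Y264.QR.kap
    refine integral_congr_ae (Eventually.of_forall fun x => ?_)
    simp only [ContinuousMap.one_apply]
    ring
  have hk1 : ∀ (φ : C(M, ℝ)) (u : M → ℝ), mass μ 1 φ u = ∫ x, (u x) ^ 2 ∂(area μ φ) := by
    intro φ u
    unfold mass
    refine integral_congr_ae (Eventually.of_forall fun x => ?_)
    simp only [ContinuousMap.one_apply, one_mul]
  have hmm : ∀ φ (e : ℕ → Pool.Agent.Y264.QR.HF D μ) (E : ℕ → ℝ), Eg a (b φ) e E →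
      ∀ j, Ev a (b φ) j = E j := fun φ e E hE j =>
    Pool.Agent.Y592.QE.mm _ a (b φ) (hF φ) e E hE j
  refine ⟨hf, i, a, b, hSf, hB, hex, ?_, ?_, havg, l4, fun φ j k hjk => l2 φ j k hjk, ?_⟩
  · rintro φ lam u ⟨hu, hu1⟩
    obtain ⟨v, hv, hvu, hvE⟩ := Pool.Agent.Y708.QR.ex_vec Pool.Agent.Y264.QR.tDenF hD (hexpc φ)
      (Real.exp_pos (-‖φ‖)) (fun x => Real.exp_le_exp.2 (neg_le_of_abs_le (by
        rw [← Real.norm_eq_abs]
        exact φ.norm_coe_le_norm x))) hu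
    have hiv : (i ⟨v, hv⟩ : M → ℝ) =ᵐ[μ] u := by
      rw [hi]
      exact hvu
    have hkap : ∀ f, Pool.Agent.Y264.QR.kap μ i f φ ⟨v, hv⟩ = mass μ f φ u := fun f =>
      Pool.Agent.Y264.QR.kap_eq μ i f φ _ _ hiv
    have h1 : b φ ⟨v, hv⟩ ⟨v, hv⟩ = 1 := by
      rw [hbk, hkap, hk1]
      exact hu1
    obtain ⟨e, E, hE⟩ := hex φ
    obtain ⟨j, hj, hjv⟩ := exists_index (hF φ) hE h1 (lam := lam) fun w => by
      rw [ha, hB, hi, hi]
      exact hvE w.1 w.2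
    exact ⟨j, ⟨v, hv⟩, hj, hjv, hkap⟩
  · intro φ j v hv
    have hkap : ∀ f, Pool.Agent.Y264.QR.kap μ i f φ v = mass μ f φ (v.1.fst : M → ℝ) := fun f =>
      Pool.Agent.Y264.QR.kap_eq μ i f φ _ _ (by rw [hi])
    refine ⟨(v.1.fst : M → ℝ), ⟨?_, ?_⟩, hkap⟩
    · refine Pool.Agent.Y264.QR.eigF tGr tFin tConf Pool.Agent.Y264.QR.tDenF M μ D hD _ (hexpc φ)
        (fun x => Real.exp_pos _) _ v.1 v.2 fun v' hv' => ?_
      have h1 := hv.2 ⟨v', hv'⟩
      rw [ha, hB, hi, hi] at h1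
      exact h1
    · rw [← hk1, ← hkap, ← hbk]
      exact hv.1
  · intro φ
    obtain ⟨e, E, hE⟩ := hex φ
    refine hE.tt.congr fun j => (hmm φ e E hE j).symm

/-- **Theorem.** QUE for generic members of a family of metrics, or generic scarring with a gap. -/
theorem que_or_scars [Nonempty M] (μ : Measure M) (D : Data M) (hD : D.IsSurf μ) {X : Type}
    [TopologicalSpace X] (κ : X → C(M, ℝ)) (hκ : Continuous κ) :
    (∀ᶠ x in residual X, QUE D μ (κ x)) ∨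
    ∃ (f : C(M, ℝ)) (ε : ℝ) (U : Set X), 0 < ε ∧ IsOpen U ∧ U.Nonempty ∧
      ∀ᶠ x in residual X, x ∈ U → ∀ Λ : ℝ, ∃ (lam : ℝ) (u : M → ℝ), Λ ≤ lam ∧
        UnitEig D μ (κ x) lam u ∧ ε ≤ |mass μ f (κ x) u - mean μ f (κ x)| := by
  obtain ⟨hf, i, a, b, hSf, hB, hex, hto, hfrom, havg, hcE, hmE, htE⟩ := bridge μ D hD
  haveI := hf
  haveI : SecondCountableTopology C(M, ℝ) := inferInstance
  set S : C(M, ℝ) → ℝ → ℕ → Set X := fun f ε j => κ ⁻¹' Dev μ i a b f ε j with hS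
  have hSc : ∀ f ε j, IsClosed (S f ε j) := fun f ε j =>
    (isClosed_dev μ i a b hSf hB hex f ε j).preimage hκ
  obtain ⟨Q, hQc, hQd⟩ := TopologicalSpace.exists_countable_dense C(M, ℝ)
  by_cases hall : ∀ f ∈ Q, ∀ n : ℕ, ∀ᶠ x in residual X, ∀ᶠ j in atTop,
      x ∉ S f (1 / ((n : ℝ) + 1)) j
  · left
    have h1 : ∀ᶠ x in residual X, ∀ f ∈ Q, ∀ n : ℕ, ∀ᶠ j in atTop,
        x ∉ S f (1 / ((n : ℝ) + 1)) j :=
      (eventually_countable_ball hQc).2 fun f hf => eventually_countable_forall.2 fun n =>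
        hall f hf n
    filter_upwards [h1] with x hx lam u hu hlam f
    rw [Metric.tendsto_atTop]
    intro ε hε
    obtain ⟨n, hn⟩ := exists_nat_one_div_lt (show 0 < ε / 3 by positivity)
    obtain ⟨f', hf'Q, hff'⟩ : ∃ f' ∈ Q, ‖f - f'‖ ≤ ε / 3 := by
      obtain ⟨f', hf', hd⟩ := Metric.mem_closure_iff.1 (hQd f) (ε / 3) (by positivity)
      exact ⟨f', hf', by rw [← dist_eq_norm]; exact hd.le⟩
    obtain ⟨J, hJ⟩ := eventually_atTop.1 (hx f' hf'Q n)
    have hbig := hlam.eventually (eventually_gt_atTop (Ev a (b (κ x)) J))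
    obtain ⟨K, hK⟩ := eventually_atTop.1 hbig
    refine ⟨K, fun k hk => ?_⟩
    obtain ⟨j, v, hj, hv, hkap⟩ := hto _ _ _ (hu k)
    have hJj : J ≤ j := by
      by_contra hcon
      push Not at hcon
      have h2 := hmE (κ x) hcon.le
      have h3 := hK k hk
      simp only at h2
      rw [hj] at h2
      linarith
    have h4 := not_dev μ i a b (hJ j hJj) hv
    have h5 := dev_approx μ i a b hSf hB hff' hv (h4.trans hn)
    rw [Real.dist_eq, ← hkap, ← havg]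
    have h6 : 3 * (ε / 3) = ε := by ring
    rwa [h6] at h5
  · right
    simp only [not_forall] at hall
    obtain ⟨f, -, n, hn⟩ := hall
    rcases closed_dichotomy (hSc f (1 / ((n : ℝ) + 1))) with h | ⟨U, hU, hUn, h⟩
    · exact absurd h hn
    have hpos : (0 : ℝ) < 1 / ((n : ℝ) + 1) := by positivity
    refine ⟨f, 1 / ((n : ℝ) + 1) / 2, U, half_pos hpos, hU, hUn, ?_⟩
    filter_upwards [h] with x hx hxU Λ
    obtain ⟨j, hjS, hjΛ⟩ := ((hx hxU).and_eventually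
      ((htE (κ x)).eventually (eventually_ge_atTop Λ))).exists
    obtain ⟨v, hv, hvε⟩ := hjS _ (half_pos hpos)
    obtain ⟨u, hu, hkap⟩ := hfrom _ _ _ hv
    refine ⟨_, u, hjΛ, hu, ?_⟩
    rw [← hkap, ← havg]
    linarith

/-- **Theorem.** Generic QUE is locally uniform. -/
theorem que_uniform [Nonempty M] (μ : Measure M) (D : Data M) (hD : D.IsSurf μ) {X : Type}
    [TopologicalSpace X] [BaireSpace X] (κ : X → C(M, ℝ)) (hκ : Continuous κ)
    (h : ∀ᶠ x in residual X, QUE D μ (κ x)) (f : C(M, ℝ)) {ε : ℝ} (hε : 0 < ε) :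
    ∃ W : Set X, IsOpen W ∧ Dense W ∧ ∀ x₀ ∈ W, ∃ V : Set X, IsOpen V ∧ x₀ ∈ V ∧ ∃ Λ : ℝ,
      ∀ᶠ x in residual X, x ∈ V → ∀ (lam : ℝ) (u : M → ℝ), Λ ≤ lam →
        UnitEig D μ (κ x) lam u → |mass μ f (κ x) u - mean μ f (κ x)| < ε := by
  obtain ⟨hf, i, a, b, hSf, hB, hex, hto, hfrom, havg, hcE, hmE, htE⟩ := bridge μ D hD
  haveI := hf
  set S : ℕ → Set X := fun j => κ ⁻¹' Dev μ i a b f ε j with hS
  have hSc : ∀ j, IsClosed (S j) := fun j =>
    (isClosed_dev μ i a b hSf hB hex f ε j).preimage hκ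
  have h1 : ∀ᶠ x in residual X, ∀ᶠ j in atTop, x ∉ S j := by
    filter_upwards [h] with x hx
    by_contra hcon
    rw [not_eventually] at hcon
    simp only [not_not] at hcon
    obtain ⟨s, hs, hsS⟩ := extraction_of_frequently_atTop hcon
    choose v hv hvε using fun k => hsS k (ε / 2) (half_pos hε)
    choose u hu hkap using fun k => hfrom (κ x) (s k) (v k) (hv k)
    have h2 := hx _ u hu ((htE (κ x)).comp hs.tendsto_atTop) f
    obtain ⟨K, hK⟩ := Metric.tendsto_atTop.1 h2 (ε / 2) (half_pos hε)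
    have h3 := hK K le_rfl
    rw [Real.dist_eq, ← hkap, ← havg] at h3
    have h4 := hvε K
    linarith
  obtain ⟨U, hU, hUd, hUS⟩ := closed_uniform hSc h1
  refine ⟨⋃ J, U J, isOpen_iUnion hU, hUd, fun x₀ hx₀ => ?_⟩
  obtain ⟨J, hJ⟩ := mem_iUnion.1 hx₀
  refine ⟨U J ∩ {x | Ev a (b (κ x)) J < Ev a (b (κ x₀)) J + 1},
    (hU J).inter (isOpen_lt ((hcE J).comp hκ) continuous_const), ⟨hJ, by simp⟩,
    Ev a (b (κ x₀)) J + 1, ?_⟩
  filter_upwards [hUS J] with x hx hxV lam u hlam hu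
  obtain ⟨j, v, hj, hv, hkap⟩ := hto _ _ _ hu
  have hJj : J ≤ j := by
    by_contra hcon
    push Not at hcon
    have h2 := hmE (κ x) hcon.le
    have h3 : Ev a (b (κ x)) J < Ev a (b (κ x₀)) J + 1 := hxV.2
    simp only at h2
    rw [hj] at h2
    linarith
  have h4 := not_dev μ i a b (hx hxV.1 j hJj) hv
  rwa [hkap, havg] at h4

end Pool.Agent.Q205.QErg
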